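import Mathlib

open Polynomial Finset

namespace Pool.Agent.Results.MP_328b17_nt.Eleven

/-- the indeterminate `q`. -/
noncomputable def q : RatFunc ℚ := RatFunc.X

/-- `(a; b)_k`. -/
noncomputable def poch (a b : RatFunc ℚ) (k : ℕ) : RatFunc ℚ := ∏ i ∈ range k, (1 - a * b ^ i)

/-- `[m]` for an integer `m`. -/
noncomputable def qint (m : ℤ) : RatFunc ℚ := (1 - q ^ m) / (1 - q)

/-- the sum `S_p(q)`. -/
noncomputable def S (p : ℕ) : RatFunc ℚ :=
  ∑ j ∈ range p, qint (2 * (p - 1) * j - 1) *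
    (poch q⁻¹ (q ^ (p - 1)) j / poch (q ^ (p - 1)) (q ^ (p - 1)) j) ^ (2 * (p - 1)) *
      q ^ (j * (p - 1) ^ 2)

/-- the conjectured right side. -/
noncomputable def R (p : ℕ) : RatFunc ℚ :=
  RatFunc.C (1 / 6 * (p - 1) * (p - 3) * (2 * p - 3) * (p - 2) ^ 2 : ℚ) * (1 - q) ^ 2 *
    algebraMap ℚ[X] (RatFunc ℚ) (cyclotomic p ℚ) ^ 4

section
variable {K : Type} [CommRing K]

def den (x : K) : K := x * (1 - x) * (∏ i ∈ range 10, (1 - x ^ 10 * (x ^ 10) ^ i)) ^ 20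

def num (x : K) : K :=
  ∑ j ∈ range 11, (x - x ^ (20 * j)) * x ^ (80 * j) * (∏ i ∈ range j, (x - (x ^ 10) ^ i)) ^ 20 *
    (∏ i ∈ Ico j 10, (1 - x ^ 10 * (x ^ 10) ^ i)) ^ 20 -
  20520 * (1 - x) ^ 2 * (∑ i ∈ range 11, x ^ i) ^ 4 * den x

lemma den_map {K' : Type} [CommRing K'] (f : K →+* K') (x : K) : f (den x) = den (f x) := by
  simp [den]

lemma num_map {K' : Type} [CommRing K'] (f : K →+* K') (x : K) : f (num x) = num (f x) := by
  simp [num, den_map, map_ofNat]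

end

instance : Fact (Nat.Prime 11) := ⟨by norm_num⟩

lemma key : (S 11 - R 11) * den q = num q := by
  have h0 : q ≠ 0 := RatFunc.X_ne_zero
  have h1 : ∀ k, 0 < k → 1 - q ^ k ≠ 0 := fun k hk h => by
    have : algebraMap ℚ[X] (RatFunc ℚ) (X ^ k - C 1) = 0 := by
      simpa [q, sub_eq_zero] using (sub_eq_zero.1 h).symm
    exact X_pow_sub_C_ne_zero hk _ (RatFunc.algebraMap_injective _ (this.trans (map_zero _).symm))
  have h2 : 1 - q ≠ 0 := by simpa using h1 1 one_pos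
  rw [sub_mul, num, S, sum_mul]
  congr 1
  · refine sum_congr rfl fun j hj => ?_
    have h3 : poch (q ^ 10) (q ^ 10) j ≠ 0 :=
      prod_ne_zero_iff.2 fun i _ => by rw [← pow_mul, ← pow_add]; exact h1 _ (by omega)
    have h4 : poch q⁻¹ (q ^ 10) j = (∏ i ∈ range j, (q - (q ^ 10) ^ i)) / q ^ j := by
      rw [poch, show q ^ j = ∏ _i ∈ range j, q by simp, ← prod_div_distrib]
      exact prod_congr rfl fun i _ => by field_simp
    have h5 : q ^ (2 * (((11 : ℕ) : ℤ) - 1) * j - 1) = q ^ (20 * j) / q := by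
      rw [zpow_sub₀ h0, zpow_one, ← zpow_natCast]; congr 2
    rw [den, ← prod_range_mul_prod_Ico _ (Nat.lt_succ_iff.1 (mem_range.1 hj)), qint, h5]
    change _ * (poch q⁻¹ (q ^ 10) j / poch (q ^ 10) (q ^ 10) j) ^ 20 * q ^ (j * 100) *
      (_ * (poch (q ^ 10) (q ^ 10) j * _) ^ 20) = _
    rw [h4]
    field_simp
    ring
  · rw [R, cyclotomic_prime]
    norm_num [q, map_ofNat]

theorem result : ¬ ∃ A B : ℚ[X], IsCoprime B (cyclotomic 11 ℚ) ∧ cyclotomic 11 ℚ ^ 5 ∣ A ∧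
    S 11 - R 11 = algebraMap ℚ[X] (RatFunc ℚ) A / algebraMap ℚ[X] (RatFunc ℚ) B := by
  rintro ⟨A, B, hB, hA, h⟩
  have hB0 : B ≠ 0 := by
    rintro rfl
    exact (cyclotomic.irreducible_rat (by norm_num)).not_isUnit (isCoprime_zero_left.1 hB)
  have e := key
  rw [h, div_mul_eq_mul_div, div_eq_iff (RatFunc.algebraMap_ne_zero hB0), q,
    ← RatFunc.algebraMap_X, ← den_map, ← num_map, ← map_mul, ← map_mul] at e
  have h1 : cyclotomic 11 ℚ ^ 5 ∣ num X := by
    refine hB.symm.pow_left.dvd_of_dvd_mul_right ?_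
    rw [← RatFunc.algebraMap_injective _ e]
    exact hA.mul_right _
  have h2 : cyclotomic 11 ℤ ^ 5 ∣ num X := by
    refine (map_dvd_map (Int.castRingHom ℚ) Int.cast_injective
      ((cyclotomic.monic 11 ℤ).pow 5)).1 ?_
    rw [Polynomial.map_pow, map_cyclotomic, ← coe_mapRingHom, num_map]
    simpa using h1
  have h3 := map_dvd (evalRingHom 2) h2
  rw [num_map, map_pow, cyclotomic_prime] at h3
  simp only [coe_evalRingHom, eval_X, eval_finsetSum, eval_pow] at h3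
  revert h3
  decide +kernel

end Pool.Agent.Results.MP_328b17_nt.Eleven
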